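import Mathlib
import Pool.Agent.Lib.MP_509488_nt.Short81.SmallA

set_option autoImplicit false

/-!
# The Fermat-Catalan equation for almost all pairs of bases in short intervals and progressions

There are `C` and `N₀` such that for all `N ≥ N₀`, all `w ≥ log N`, EVERY `x` in `[2, N]` and EVERY
arithmetic progression `P = {a + b j : j < M}` of `M` terms in `[1, N]`: for all but at most
`3 M exp (-log M / (log w) ^ C)` of the `y ≥ 2` in `P` coprime to `x`, the equation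

  `± x ^ p ± y ^ q = z ^ r`

has no solution in integers `p ≥ 1`, `q` prime, `r ≥ 2` and `z`, except possibly solutions in
which `x y` has no prime factor up to `w` and one of `p`, `q` exceeds `exp w`.  Consequently, for
every interval `I` and every progression `P` in `[1, N]` with at least `m` terms each, where
`log m ≥ (log log N) ^ C`, at most `|I| |P| / (log m) ^ c` pairs of coprime bases `x ∈ I`, `y ∈ P`
occur in any solution; and for every interval `I` of `M` terms in `[1, N]`, `log M ≥ (log w) ^ C`,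
all but at most `5 M / log w` of the `y ∈ I` occur in no solution with any `x` coprime to `y`,
`2 ≤ x ≤ exp (log M / (log w) ^ C)`.
-/

namespace Pool.Agent.Results.MP_509488_nt.BasesInProgressions

theorem result :
    (∃ C N₀ : ℕ, ∀ N : ℕ, N₀ ≤ N → ∀ w : ℝ, Real.log N ≤ w → ∀ x : ℕ, 2 ≤ x → x ≤ N →
      ∀ a b M : ℕ, 1 ≤ a → 1 ≤ b → (∀ j < M, a + b * j ≤ N) →
      ({y : ℕ | (∃ j < M, y = a + b * j) ∧ 2 ≤ y ∧ Nat.Coprime x y ∧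
          ∃ (p q r : ℕ) (z e₁ e₂ : ℤ), 1 ≤ p ∧ q.Prime ∧ 2 ≤ r ∧ (e₁ = 1 ∨ e₁ = -1) ∧
            (e₂ = 1 ∨ e₂ = -1) ∧ e₁ * (x : ℤ) ^ p + e₂ * (y : ℤ) ^ q = z ^ r ∧
            ((∃ l : ℕ, l.Prime ∧ l ∣ x * y ∧ (l : ℝ) ≤ w) ∨
              ((p : ℝ) ≤ Real.exp w ∧ (q : ℝ) ≤ Real.exp w))}.ncard : ℝ) ≤
        3 * M * Real.exp (-(Real.log M / Real.log w ^ C))) ∧
    (∃ c : ℝ, 0 < c ∧ ∃ C N₀ : ℕ, ∀ N : ℕ, N₀ ≤ N → ∀ X a b M₁ M₂ m : ℕ,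
      1 ≤ a → 1 ≤ b → X + M₁ ≤ N → (∀ j < M₂, a + b * j ≤ N) → m ≤ M₁ → m ≤ M₂ →
      Real.log (Real.log N) ^ C ≤ Real.log m →
      ({v : ℕ × ℕ | X < v.1 ∧ v.1 ≤ X + M₁ ∧ (∃ j < M₂, v.2 = a + b * j) ∧
          2 ≤ v.1 ∧ 2 ≤ v.2 ∧ Nat.Coprime v.1 v.2 ∧
          ∃ (p q r : ℕ) (z e₁ e₂ : ℤ), 1 ≤ p ∧ q.Prime ∧ 2 ≤ r ∧ (e₁ = 1 ∨ e₁ = -1) ∧
            (e₂ = 1 ∨ e₂ = -1) ∧ e₁ * (v.1 : ℤ) ^ p + e₂ * (v.2 : ℤ) ^ q = z ^ r}.ncard : ℝ) ≤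
        (M₁ : ℝ) * M₂ / Real.log m ^ c) ∧
    (∃ D N₀ : ℕ, ∀ N : ℕ, N₀ ≤ N → ∀ w : ℝ, Real.log N ≤ w → ∀ X M : ℕ,
      X + M ≤ N → Real.log w ^ D ≤ Real.log M →
      ({y : ℕ | X < y ∧ y ≤ X + M ∧ 2 ≤ y ∧
          ∃ x : ℕ, 2 ≤ x ∧ Real.log x ≤ Real.log M / Real.log w ^ D ∧ Nat.Coprime x y ∧
          ∃ (p q r : ℕ) (z e₁ e₂ : ℤ), 1 ≤ p ∧ q.Prime ∧ 2 ≤ r ∧ (e₁ = 1 ∨ e₁ = -1) ∧
            (e₂ = 1 ∨ e₂ = -1) ∧ e₁ * (x : ℤ) ^ p + e₂ * (y : ℤ) ^ q = z ^ r}.ncard : ℝ) ≤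
        5 * M / Real.log w) :=
  ⟨Pool.Agent.Lib.MP_509488_nt.Unif.allFinalA, Pool.Agent.Lib.MP_509488_nt.Unif.allPairsA,
    Pool.Agent.Lib.MP_509488_nt.Unif.allSmallA⟩

end Pool.Agent.Results.MP_509488_nt.BasesInProgressions
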