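import Mathlib
import Pool.Agent.Lib.MP_509488_nt.Sparse.AllB

/-!
# The Fermat-Catalan equation: few solutions with a large exponent

For every `ε > 0` there is `K` such that, for all large `N`, the equation `x ^ p + y ^ q = z ^ r`
has at most `N ^ ε` solutions in coprime `x, y, z` in `[2, N]` and primes `p, q, r`, not all
equal, with `1/p + 1/q + 1/r ≤ 1` and `max (p, q, r) ≥ K`.
-/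

namespace Pool.Agent.Results.MP_509488_nt.FewSolutions

theorem result (ε : ℝ) (hε : 0 < ε) : ∃ K N₀ : ℕ, ∀ N : ℕ, N₀ ≤ N →
    {v : ℕ × ℕ × ℕ × ℕ × ℕ × ℕ | ∃ x y z p q r : ℕ, v = (x, y, z, p, q, r) ∧
      2 ≤ x ∧ x ≤ N ∧ 2 ≤ y ∧ y ≤ N ∧ 2 ≤ z ∧ z ≤ N ∧ Nat.Coprime x y ∧
      p.Prime ∧ q.Prime ∧ r.Prime ∧ (1 : ℝ) / p + 1 / q + 1 / r ≤ 1 ∧ ¬ (p = q ∧ q = r) ∧
      x ^ p + y ^ q = z ^ r ∧ (K ≤ p ∨ K ≤ q ∨ K ≤ r)}.Finite ∧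
    ({v : ℕ × ℕ × ℕ × ℕ × ℕ × ℕ | ∃ x y z p q r : ℕ, v = (x, y, z, p, q, r) ∧
      2 ≤ x ∧ x ≤ N ∧ 2 ≤ y ∧ y ≤ N ∧ 2 ≤ z ∧ z ≤ N ∧ Nat.Coprime x y ∧
      p.Prime ∧ q.Prime ∧ r.Prime ∧ (1 : ℝ) / p + 1 / q + 1 / r ≤ 1 ∧ ¬ (p = q ∧ q = r) ∧
      x ^ p + y ^ q = z ^ r ∧ (K ≤ p ∨ K ≤ q ∨ K ≤ r)}.ncard : ℝ) ≤ (N : ℝ) ^ ε :=
  Pool.Agent.Lib.MP_509488_nt.Sparse.allFinalB ε hε

end Pool.Agent.Results.MP_509488_nt.FewSolutions
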