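import Mathlib
import Pool.Agent.Lib.MP_509488_nt.Stick.Defs
import Pool.Agent.Lib.MP_509488_nt.Stick.Main2

/-!
# The Fermat-Catalan equation of signature `(p, p, r)`, `5 ≤ p < r` primes

Let `u^p - v^p = w^r` with coprime nonzero `u, v, w` (for `x^p + y^p = z^r` take `v = -y`), let
`M` be one of `u, v, u - v, u + v`, and `H = max (|u|, |v|)`. Call a prime `l ≠ p` dividing `M`
exceptional if `p r` divides `l^g - 1` or `l^g + 1`, where `g` is the order of `l` in
`(ℤ/p)ˣ/{±1}`. The theorem says that `M` has many exceptional prime factors and that the other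
prime factors contribute little:

* if `r ≥ 2 k² p² (⌊log₂ p⌋ + 3)` (without the factor `2`, for all `M` with at most one exception
  `M₀`), then `M` has more than `k` exceptional prime factors, in particular it is not a prime
  power, and one of them is at least `⌊k / (p - 1)⌋ p r`;
* more precise lower bounds for the number of the primes of `ℚ(ζ_p)⁺` above the exceptional prime
  factors of `M`, for `M ≠ M₀` and for all `M`, are given by the inequalities of the third part;
  they have the shape `c r^(1 - 2 / (p - 1))` for fixed `p`;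
* a divisor `M₁` of `M` without exceptional prime factor has `|M₁|` at most about
  `2 p H^((p - 1) / (2 r))` (times `r` if `r` divides `M₁`), and a similar bound holds for all
  divisors of `M`, in particular for the prime powers dividing `M`;
* `H ≤ 2 |M|` for `M ≠ M₀`, and `H ≤ |M|^4` for all `M` if `r ≥ p² (⌊log₂ p⌋ + 3)`.

The proof uses that the half system products `∏ (u - ζ^e v)` are, up to roots of unity, `r`-th
powers (Jacobi sums), that these `(p - 1) / 2` `r`-th roots are multiplicatively independent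
(`B_{1,χ} ≠ 0` for odd `χ`), and the pigeonhole principle for their monomials, at infinity and
modulo the parts of `M` in a group of prime ideals of `ℚ(ζ_p)`.
-/

set_option autoImplicit false

namespace Pool.Agent.Results.MP_509488_nt.ManyPrimeFactors

open Pool.Agent.Lib.MP_509488_nt

theorem result (p r : ℕ) (hp : p.Prime) (hr : r.Prime) (hp5 : 5 ≤ p) (hpr : p < r)
    (u v w : ℤ) (huv : IsCoprime u v) (hu : u ≠ 0) (hv : v ≠ 0) (hw : w ≠ 0)
    (h : u ^ p - v ^ p = w ^ r) :
    ∃ M₀ : ℤ, ∀ M : ℤ, (M = u ∨ M = v ∨ M = u - v ∨ M = u + v) →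
      (∀ k : ℕ, 1 ≤ k →
        (2 * (k ^ 2 * (p ^ 2 * (Nat.log 2 p + 3))) ≤ r ∨
          M ≠ M₀ ∧ k ^ 2 * (p ^ 2 * (Nat.log 2 p + 3)) ≤ r) →
        k < (excPrimes p r M).card ∧ k * ((p - 1) / 2) < excWeight p r M ∧
          ∃ l ∈ excPrimes p r M, k / (p - 1) * (p * r) ≤ l) ∧
      (M ≠ M₀ → ((r : ℤ) ∣ M ∨ (excPrimes p r M).Nonempty) ∧
        (2 * p < r → (excPrimes p r M).Nonempty) ∧
        max u.natAbs v.natAbs ≤ 2 * M.natAbs) ∧
      (∀ q s t b : ℕ, 1 ≤ q → excWeight p r M ≤ q * s → GoodPair p r s t →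
        (2 * p * r) ^ 2 ≤ (2 * p + 1) ^ b →
        (M ≠ M₀ → 2 * r ≤ (p - 1) * (q * (t + 1) + b + 1)) ∧
        (p ^ 2 ≤ r → ∀ a : ℕ, GoodPair p r 1 a →
          4 * r ≤ 2 * (p - 1) * (q * (t + 1) + b + 1) + (a * (p - 1) ^ 2 + p * (p - 1)))) ∧
      (∀ M₁ : ℤ, M₁ ∣ M →
        (excPrimes p r M₁ = ∅ →
          M₁.natAbs ^ (2 * r) ≤ (2 * (if (r : ℤ) ∣ M₁ then p * r else p)) ^ (2 * r) *
            (p * max u.natAbs v.natAbs ^ (p - 1))) ∧
        (∀ q s t : ℕ, 1 ≤ q → excWeight p r M₁ ≤ q * s → GoodPair p r s t →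
          M₁.natAbs ^ (2 * r) ≤ (2 ^ q * (if (r : ℤ) ∣ M₁ then p * r else p)) ^ (2 * r) *
            (p * max u.natAbs v.natAbs ^ (p - 1)) ^ (q * t))) ∧
      (p ^ 2 * (Nat.log 2 p + 3) ≤ r → max u.natAbs v.natAbs ≤ M.natAbs ^ 4) := by
  have hpf : Fact p.Prime := ⟨hp⟩
  have huv' : u ≠ v := by
    rintro rfl
    rw [sub_self] at h
    exact hw (pow_eq_zero_iff hr.ne_zero |>.1 h.symm)
  obtain ⟨d, hd, hdH, hfour⟩ := Stick.four hr hp5 hpr huv hu hv huv' h
  obtain ⟨M₀, h0⟩ := Stick.three_of_four u v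
  refine ⟨M₀, fun M hM => ⟨?_, ?_, ?_, ?_, ?_⟩⟩
  · intro k hk hcase
    have hW : k * ((p - 1) / 2) < excWeight p r M := by
      rcases hcase with h1 | ⟨h1, h2⟩
      · exact Stick.weight_four hr hp5 huv hu hv huv' h hM hk h1
      · exact Stick.weight_three hr hp5 huv hu hv huv' h hM hk h2 (h0 M hM h1)
    obtain ⟨h1, h2⟩ := Stick.of_weight hr hp5 hpr hW
    exact ⟨h1, hW, h2⟩
  · intro hne
    have hHM := h0 M hM hne
    obtain ⟨h1, h2⟩ := Stick.large hr hp5 huv hu hv huv' h hM hpr hHM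
    exact ⟨h2, h1, hHM⟩
  · intro q s t b hq hW hg hb
    exact ⟨fun hne => Stick.ineq_three hr hp5 huv hu hv huv' h hM hpr (h0 M hM hne) hq hW
      (Stick.GoodPair.fam (by omega) hg) hb,
      fun hp2 a ha => Stick.ineq_four hr hp5 huv hu hv huv' h hM hp2 hq hW
        (Stick.GoodPair.fam (by omega) hg)
        (by simpa using Stick.GoodPair.fam (by omega) ha) hb⟩
  · obtain ⟨-, hI, -, κ, hκ, hII⟩ := hfour M hM
    have hκp : κ ≤ p := by
      rcases hκ with rfl | ⟨rfl, -⟩
      · omega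
      · exact le_rfl
    have main : ∀ M₁ : ℤ, M₁ ∣ M → ∀ t q s : ℕ, 1 ≤ q → excWeight p r M₁ ≤ q * s →
        Stick.Fam p t (r ^ s) →
        M₁.natAbs ^ (2 * r) ≤ (2 ^ q * (if (r : ℤ) ∣ M₁ then p * r else p)) ^ (2 * r) *
          (p * max u.natAbs v.natAbs ^ (p - 1)) ^ (q * t) := by
      intro M₁ hM₁ t q s hq hW hF
      have h2 := hII M₁ hM₁ t q s hq hW hF
      have hle : 2 ^ q * (κ * Stick.rho r M₁) ≤ 2 ^ q * (if (r : ℤ) ∣ M₁ then p * r else p) := by
        apply Nat.mul_le_mul_left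
        unfold Stick.rho
        split_ifs
        · exact Nat.mul_le_mul_right _ hκp
        · omega
      calc M₁.natAbs ^ (2 * r) = (M₁.natAbs ^ 2) ^ r := by rw [← pow_mul]
        _ ≤ (κ ^ 2 * Stick.rho r M₁ ^ 2 * (4 * d ^ t) ^ q) ^ r := Nat.pow_le_pow_left h2 r
        _ = (2 ^ q * (κ * Stick.rho r M₁)) ^ (2 * r) * (d ^ r) ^ (q * t) := by
            have e1 : (4 : ℕ) = 2 ^ 2 := by norm_num
            rw [e1, show κ ^ 2 * Stick.rho r M₁ ^ 2 * (2 ^ 2 * d ^ t) ^ q =
              (2 ^ q * (κ * Stick.rho r M₁)) ^ 2 * d ^ (q * t) by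
                rw [mul_pow (2 ^ 2), ← pow_mul, ← pow_mul, mul_comm t q, mul_pow (2 ^ q),
                  ← pow_mul 2 q, mul_comm q 2]
                ring, mul_pow, ← pow_mul, ← pow_mul, ← pow_mul, mul_comm (q * t) r]
        _ ≤ _ := Nat.mul_le_mul (Nat.pow_le_pow_left hle _) (Nat.pow_le_pow_left hdH _)
    intro M₁ hM₁
    refine ⟨fun hexc => ?_, fun q s t hq hW hg => main M₁ hM₁ t q s hq hW
      (Stick.GoodPair.fam (by omega) hg)⟩
    have hW : excWeight p r M₁ = 0 := by unfold excWeight; rw [hexc, Finset.sum_empty]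
    have hF : Stick.Fam p (1 * 1) (r ^ 0) := by
      rw [pow_zero]
      exact Stick.fam_cube (by omega) (by omega) (by norm_num)
    have h2 := main M₁ hM₁ _ 1 0 le_rfl (by rw [hW]) hF
    rwa [mul_one, mul_one, pow_one, pow_one] at h2
  · exact fun hlog => Stick.H_le hr hp5 huv hu hv huv' h hM hlog

end Pool.Agent.Results.MP_509488_nt.ManyPrimeFactors
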