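import Mathlib
import Pool.Agent.Lib.MP_509488_nt.Wt.All

/-!
# The Fermat-Catalan equation: few solutions with one small base

For every `ε > 0` there are `c > 0` and `K` such that, for all large `N`, there are at most
`N ^ ε` tuples `(x, y, z, p, q, r)` with `x, y ≥ 1` coprime, `2 ≤ z ≤ N`, primes `p, q, r`, not all
equal, `p, q ≥ K`, and

* `x ^ p + y ^ q = z ^ r` with `x, y ≥ 2` and `r (log p q) ^ 4 ≤ c p q` (no bound for `x` and `y`), or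
* one of `x ^ p, y ^ q, z ^ r` is the sum of the other two, `p, q ≤ N ^ c` and
  `x ^ p, y ^ q ≤ N ^ (c p q)`.
-/

namespace Pool.Agent.Results.MP_509488_nt.OneSmallBase

theorem result (ε : ℝ) (hε : 0 < ε) : ∃ c : ℝ, 0 < c ∧ ∃ K N₀ : ℕ, ∀ N : ℕ, N₀ ≤ N →
    {v : ℕ × ℕ × ℕ × ℕ × ℕ × ℕ | ∃ x y z p q r : ℕ, v = (x, y, z, p, q, r) ∧
      1 ≤ x ∧ 1 ≤ y ∧ 2 ≤ z ∧ z ≤ N ∧ Nat.Coprime x y ∧ p.Prime ∧ q.Prime ∧ r.Prime ∧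
      ¬ (p = q ∧ q = r) ∧ K ≤ p ∧ K ≤ q ∧
      ((2 ≤ x ∧ 2 ≤ y ∧ x ^ p + y ^ q = z ^ r ∧
          (r : ℝ) * Real.log (p * q) ^ 4 ≤ c * (p * q)) ∨
       ((x ^ p + y ^ q = z ^ r ∨ x ^ p + z ^ r = y ^ q ∨ y ^ q + z ^ r = x ^ p) ∧
          (p : ℝ) ≤ (N : ℝ) ^ c ∧ (q : ℝ) ≤ (N : ℝ) ^ c ∧
          (x : ℝ) ^ p ≤ (N : ℝ) ^ (c * (p * q)) ∧
          (y : ℝ) ^ q ≤ (N : ℝ) ^ (c * (p * q))))}.Finite ∧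
    ({v : ℕ × ℕ × ℕ × ℕ × ℕ × ℕ | ∃ x y z p q r : ℕ, v = (x, y, z, p, q, r) ∧
      1 ≤ x ∧ 1 ≤ y ∧ 2 ≤ z ∧ z ≤ N ∧ Nat.Coprime x y ∧ p.Prime ∧ q.Prime ∧ r.Prime ∧
      ¬ (p = q ∧ q = r) ∧ K ≤ p ∧ K ≤ q ∧
      ((2 ≤ x ∧ 2 ≤ y ∧ x ^ p + y ^ q = z ^ r ∧
          (r : ℝ) * Real.log (p * q) ^ 4 ≤ c * (p * q)) ∨
       ((x ^ p + y ^ q = z ^ r ∨ x ^ p + z ^ r = y ^ q ∨ y ^ q + z ^ r = x ^ p) ∧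
          (p : ℝ) ≤ (N : ℝ) ^ c ∧ (q : ℝ) ≤ (N : ℝ) ^ c ∧
          (x : ℝ) ^ p ≤ (N : ℝ) ^ (c * (p * q)) ∧
          (y : ℝ) ^ q ≤ (N : ℝ) ^ (c * (p * q))))}.ncard : ℝ) ≤ (N : ℝ) ^ ε :=
  Pool.Agent.Lib.MP_509488_nt.Wt.stMain' ε hε

end Pool.Agent.Results.MP_509488_nt.OneSmallBase
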